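import Mathlib

namespace Pool.Agent.Results.MP_f8d954_co.Counter

variable {P : Type}

/-- `r` is a (reflexive) order relation on `P`. -/
def IsOrd (r : P → P → Prop) : Prop :=
  (∀ x, r x x) ∧ (∀ x y, r x y → r y x → x = y) ∧ ∀ x y z, r x y → r y z → r x z

/-- Interval order: no `a ⊏ c`, `b ⊏ d` with `b ⋢ c` and `a ⋢ d`. -/
def IntervalOrder (r : P → P → Prop) : Prop :=
  IsOrd r ∧ ¬ ∃ a b c d, (r a c ∧ a ≠ c) ∧ (r b d ∧ b ≠ d) ∧ ¬ r b c ∧ ¬ r a d

/-- `k` interval orders whose intersection is `r`. -/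
def Realizer (r : P → P → Prop) (k : ℕ) (f : Fin k → P → P → Prop) : Prop :=
  (∀ j, IntervalOrder (f j)) ∧ ∀ x y, r x y ↔ ∀ j, f j x y

/-- Interval dimension. -/
noncomputable def idim (r : P → P → Prop) : ℕ := sInf {k | ∃ f, Realizer r k f}

/-- Rank of `p`: length of a longest chain whose largest element is `p`. -/
noncomputable def rank (r : P → P → Prop) (p : P) : ℕ :=
  sSup {k | ∃ C : Finset P, IsChain r (↑C : Set P) ∧ p ∈ C ∧ (∀ x ∈ C, r x p) ∧ C.card = k + 1}

def RankRealizer (r : P → P → Prop) (k : ℕ) (f : Fin k → P → P → Prop) : Prop :=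
  Realizer r k f ∧ ∀ j p, rank (f j) p = rank r p

def key (v : Fin 5) : ℕ := (v.val + 3) % 5

/-- The disjoint union of the chains `0 < 1` and `2 < 3 < 4`. -/
def le0 (x y : Fin 5) : Prop := x ≤ y ∧ key x ≤ key y

instance : DecidableRel le0 := fun x y => inferInstanceAs (Decidable (x ≤ y ∧ key x ≤ key y))

lemma ord0 : IsOrd le0 := by
  unfold IsOrd
  decide

lemma real2 : ∃ f, Realizer le0 2 f := by
  refine ⟨![fun x y => x ≤ y, fun x y => key x ≤ key y], ?_, ?_⟩
  · intro j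
    fin_cases j
    · show IntervalOrder fun x y : Fin 5 => x ≤ y
      unfold IntervalOrder IsOrd
      decide
    · show IntervalOrder fun x y : Fin 5 => key x ≤ key y
      unfold IntervalOrder IsOrd
      decide
  · intro x y
    simp [Fin.forall_fin_two, le0]

lemma idim0 : idim le0 = 2 := by
  refine le_antisymm (Nat.sInf_le real2) ?_
  refine le_csInf ⟨2, real2⟩ ?_
  rintro k ⟨f, h1, h2⟩
  by_contra hk
  have hk' : k = 0 ∨ k = 1 := by omega
  rcases hk' with rfl | rfl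
  · exact absurd ((h2 0 4).2 fun j => j.elim0) (by decide)
  · have e : ∀ x y, f 0 x y ↔ le0 x y := fun x y => by
      rw [h2]
      exact ⟨fun h j => by rwa [Subsingleton.elim j 0], fun h => h 0⟩
    refine (h1 0).2 ⟨0, 3, 1, 4, ?_⟩
    simp only [e]
    decide

lemma bdd (r : Fin 5 → Fin 5 → Prop) (p : Fin 5) : BddAbove {k | ∃ C : Finset (Fin 5),
    IsChain r (↑C : Set (Fin 5)) ∧ p ∈ C ∧ (∀ x ∈ C, r x p) ∧ C.card = k + 1} := by
  refine ⟨5, ?_⟩
  rintro k ⟨C, -, -, -, h⟩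
  have := C.card_le_univ
  simp only [Fintype.card_fin] at this
  omega

lemma rank0 : rank le0 1 ≤ 1 := by
  refine csSup_le' ?_
  rintro k ⟨C, -, -, h, hc⟩
  have hsub : C ⊆ {0, 1} := by
    have hh : ∀ x : Fin 5, le0 x 1 → x ∈ ({0, 1} : Finset (Fin 5)) := by decide
    exact fun x hx => hh x (h x hx)
  have := Finset.card_le_card hsub
  have h2 : ({0, 1} : Finset (Fin 5)).card = 2 := by decide
  omega

lemma none_rank (k : ℕ) : ¬ ∃ f, RankRealizer le0 k f := by
  rintro ⟨f, ⟨h1, h2⟩, h3⟩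
  have hn : ¬ ∀ j, f j 0 4 := fun h => absurd ((h2 0 4).2 h) (by decide)
  push Not at hn
  obtain ⟨j, hj⟩ := hn
  obtain ⟨⟨hr, -, ht⟩, hi⟩ := h1 j
  have a01 : f j 0 1 := (h2 0 1).1 (by decide) j
  have a23 : f j 2 3 := (h2 2 3).1 (by decide) j
  have a34 : f j 3 4 := (h2 3 4).1 (by decide) j
  have a31 : f j 3 1 := by
    by_contra h
    exact hi ⟨0, 3, 1, 4, ⟨a01, by decide⟩, ⟨a34, by decide⟩, h, hj⟩
  have a21 : f j 2 1 := ht _ _ _ a23 a31
  have h4 : 2 ≤ rank (f j) 1 := by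
    refine le_csSup (bdd _ _) ⟨{2, 3, 1}, ?_, by decide, ?_, by decide⟩
    · intro x hx y hy _
      simp only [Finset.coe_insert, Finset.coe_singleton, Set.mem_insert_iff,
        Set.mem_singleton_iff] at hx hy
      rcases hx with rfl | rfl | rfl <;> rcases hy with rfl | rfl | rfl <;> simp [*]
    · intro x hx
      simp only [Finset.mem_insert, Finset.mem_singleton] at hx
      rcases hx with rfl | rfl | rfl <;> simp [*]
  have := h3 j 1
  have := rank0
  omega

theorem result : ∃ r : Fin 5 → Fin 5 → Prop, IsOrd r ∧ idim r = 2 ∧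
    ∀ k, ¬ ∃ f, RankRealizer r k f :=
  ⟨le0, ord0, idim0, none_rank⟩

end Pool.Agent.Results.MP_f8d954_co.Counter
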